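import Pool.Agent.Lib.MP_c7af3c_ag.LX.H46.Final

/-!
The closed subschemes of very general complete intersections of moderately large degree: groupless
if and only if arithmetically hyperbolic, if and only if there is no line inside.
-/

namespace Pool.Agent.Results.MP_c7af3c_ag.ClosedSubvarieties

open AlgebraicGeometry CategoryTheory CategoryTheory.Limits
open MvPolynomial (homogeneousSubmodule)

/-- `X` is groupless: every morphism over `k` from a proper integral `k`-group scheme (an abelian
variety) to `X` has image a single point. -/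
def Groupless (k : Type) [Field k] (X : Over (Spec (CommRingCat.of k))) : Prop :=
  ∀ (_ : CartesianMonoidalCategory (Over (Spec (CommRingCat.of k))))
    (A : Over (Spec (CommRingCat.of k))) (_ : GrpObj A),
    AlgebraicGeometry.IsIntegral A.left → IsProper A.hom →
    ∀ (g : A ⟶ X) (a b : A.left), g.left.base a = g.left.base b

/-- `X` is arithmetically hyperbolic: for every subring `R` of `k` that is finitely generated as a
ring and every separated `R`-scheme `M` of finite type with `M ×_R k ≅ X` over `k`, the set of
sections `M(R)` is finite. -/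
def ArithmeticallyHyperbolic (k : Type) [Field k] (X : Over (Spec (CommRingCat.of k))) : Prop :=
  ∀ (R : Subring k), Algebra.FiniteType ℤ R → ∀ (M : Over (Spec (CommRingCat.of R))),
    IsSeparated M.hom → LocallyOfFiniteType M.hom → QuasiCompact M.hom →
    (∃ e : pullback M.hom (Spec.map (CommRingCat.ofHom R.subtype)) ≅ X.left,
       e.hom ≫ X.hom = pullback.snd _ _) →
    {s : Spec (CommRingCat.of R) ⟶ M.left | s ≫ M.hom = 𝟙 _}.Finite

/-- The family of all coefficients of the forms `F j` of degrees `d j` in `n + 1` variables, indexed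
by the pairs (`j`, monomial of degree `d j`). -/
def coefficients {k : Type} [Field k] {n c : ℕ} (d : Fin c → ℕ)
    (F : Fin c → MvPolynomial (Fin (n + 1)) k) :
    {s : Fin c × (Fin (n + 1) →₀ ℕ) // s.2.degree = d s.1} → k :=
  fun s => MvPolynomial.coeff s.1.2 (F s.1.1)

section

attribute [local instance] MvPolynomial.gradedAlgebra

variable (k : Type) [Field k] (n : ℕ)

/-- Projective space `ℙ^n` over `k`: `Proj` of the polynomial ring in `x_0, …, x_n`. Its points are
the homogeneous prime ideals which do not contain all the `x_l`. -/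
noncomputable abbrev ProjectiveSpace : Scheme.{0} :=
  Proj (homogeneousSubmodule (Fin (n + 1)) k)

/-- The structure morphism of `ℙ^n`. -/
noncomputable def structureMorphism : ProjectiveSpace k n ⟶ Spec (CommRingCat.of k) :=
  Proj.toSpecZero (homogeneousSubmodule (Fin (n + 1)) k) ≫
    Spec.map (CommRingCat.ofHom (algebraMap k (homogeneousSubmodule (Fin (n + 1)) k 0)))

variable {k n} {Y : Scheme.{0}} (i : Y ⟶ ProjectiveSpace k n)

/-- The form `g` vanishes on the image of `i : Y ⟶ ℙ^n`: it belongs to the homogeneous prime ideal
`i y` for every point `y` of `Y`. -/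
def VanishesOn (g : MvPolynomial (Fin (n + 1)) k) : Prop :=
  ∀ y : Y, g ∈ (i.base y).asHomogeneousIdeal

/-- The closed subscheme `i : Y ⟶ ℙ^n` contains a line: there are linearly independent vectors
`a`, `b` such that every form which vanishes on `Y` vanishes at all the points `s a + t b`. -/
def ContainsLine : Prop :=
  ∃ a b : Fin (n + 1) → k, LinearIndependent k ![a, b] ∧
    ∀ g : MvPolynomial (Fin (n + 1)) k, (∃ e, g.IsHomogeneous e) → VanishesOn i g →
      ∀ s t : k, MvPolynomial.eval (fun l => s * a l + t * b l) g = 0

end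

/-- The morphism `f : X ⟶ Y` over `k` has finite fibres over `k`-points. -/
def IsQuasiFinite {k : Type} [Field k] {X Y : Over (Spec (CommRingCat.of k))} (f : X ⟶ Y) : Prop :=
  ∀ y : Spec (CommRingCat.of k) ⟶ Y.left,
    {x : Spec (CommRingCat.of k) ⟶ X.left | x ≫ X.hom = 𝟙 _ ∧ x ≫ f.left = y}.Finite

/-- Let `k` be an algebraically closed field of characteristic zero and `F 0, …, F (c-1)` forms over
`k` of degrees `d j ≥ 1` in `n + 1` variables, all of whose coefficients together are algebraically
independent over `ℤ` (equivalently, over `ℚ`). Suppose that either `c < n` and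
`2 n + 1 ≤ c + ∑ j, d j + e` for some `e ≥ 0` such that `2 e + c ≤ n`, or `n = c + 3`,
`∑ j, d j = n + 2` and all `d j ≥ 2`. (For one hypersurface of degree `d` and `n ≥ 2` this means
`2 d ≥ 3 n + 1` or `n = 4`, `d = 6`. If all `d j ≥ 2` and `n - c ≥ 2`, all cases with
`2 n - 1 ≤ c + ∑ j, d j` are included, except the K3 surfaces `n = c + 2`, `∑ j, d j = n + 1`.)
Let `i : Y ⟶ ℙ^n` be a closed immersion over `k` such that the `F j` vanish on `Y` (for example the
inclusion of an arbitrary closed subvariety of the complete intersection `F = 0`). Then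

* `Y` is groupless if and only if it is arithmetically hyperbolic,
* `Y` is groupless if and only if it does not contain a line,
* if `2 n - 1 ≤ c + ∑ j, d j` then `Y` does not contain a line,
* if `Y` is groupless, every `k`-scheme `X` of finite type with a quasi-finite morphism to `Y` is
  groupless and arithmetically hyperbolic. -/
theorem result (k : Type) [Field k] [IsAlgClosed k] [CharZero k] (n c : ℕ) (d : Fin c → ℕ)
    (F : Fin c → MvPolynomial (Fin (n + 1)) k) (hom : ∀ j, (F j).IsHomogeneous (d j))
    (gen : AlgebraicIndependent ℤ (coefficients d F)) (pos : ∀ j, 1 ≤ d j)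
    (range : (∃ e : ℕ, 2 * n + 1 ≤ c + ∑ j, d j + e ∧ 2 * e + c ≤ n ∧ c < n) ∨
      ((∀ j, 2 ≤ d j) ∧ n = c + 3 ∧ ∑ j, d j = n + 2))
    (Y : Over (Spec (CommRingCat.of k))) (i : Y.left ⟶ ProjectiveSpace k n)
    (closed : IsClosedImmersion i) (overk : i ≫ structureMorphism k n = Y.hom)
    (vanish : ∀ j, VanishesOn i (F j)) :
    (Groupless k Y ↔ ArithmeticallyHyperbolic k Y) ∧
    (Groupless k Y ↔ ¬ ContainsLine i) ∧
    (2 * n ≤ c + ∑ j, d j + 1 → ¬ ContainsLine i) ∧
    (Groupless k Y → ∀ (X : Over (Spec (CommRingCat.of k))) (f : X ⟶ Y),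
      LocallyOfFiniteType X.hom → QuasiCompact X.hom → IsQuasiFinite f →
      Groupless k X ∧ ArithmeticallyHyperbolic k X) :=
  Pool.Agent.LX.H46.closedAll k n c d F hom gen pos range Y i closed overk vanish

end Pool.Agent.Results.MP_c7af3c_ag.ClosedSubvarieties
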