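import Pool.Agent.Lib.MP_c7af3c_ag.FANO.H54.Final

/-!
The Fano schemes of linear subspaces of very general complete intersections, and all schemes
finite over them, are groupless and arithmetically hyperbolic.
-/

namespace Pool.Agent.Results.MP_c7af3c_ag.FanoSchemes

open AlgebraicGeometry CategoryTheory CategoryTheory.Limits
open MvPolynomial (homogeneousSubmodule)

/-- `X` is groupless: every morphism over `k` from a proper integral `k`-group scheme (an abelian
variety) to `X` has image a single point. -/
def Groupless (k : Type) [Field k] (X : Over (Spec (CommRingCat.of k))) : Prop :=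
  ∀ (_ : CartesianMonoidalCategory (Over (Spec (CommRingCat.of k))))
    (A : Over (Spec (CommRingCat.of k))) (_ : GrpObj A),
    AlgebraicGeometry.IsIntegral A.left → IsProper A.hom →
    ∀ (g : A ⟶ X) (a b : A.left), g.left.base a = g.left.base b

/-- `X` is arithmetically hyperbolic: for every subring `R` of `k` that is finitely generated as a
ring and every separated `R`-scheme `M` of finite type with `M ×_R k ≅ X` over `k`, the set of
sections `M(R)` is finite. -/
def ArithmeticallyHyperbolic (k : Type) [Field k] (X : Over (Spec (CommRingCat.of k))) : Prop :=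
  ∀ (R : Subring k), Algebra.FiniteType ℤ R → ∀ (M : Over (Spec (CommRingCat.of R))),
    IsSeparated M.hom → LocallyOfFiniteType M.hom → QuasiCompact M.hom →
    (∃ e : pullback M.hom (Spec.map (CommRingCat.ofHom R.subtype)) ≅ X.left,
       e.hom ≫ X.hom = pullback.snd _ _) →
    {s : Spec (CommRingCat.of R) ⟶ M.left | s ≫ M.hom = 𝟙 _}.Finite

/-- The family of all coefficients of the forms `F m` of degrees `d m`, indexed by the pairs
(`m`, monomial of degree `d m`). -/
def coefficients {k : Type} [Field k] {n c : ℕ} (d : Fin c → ℕ)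
    (F : Fin c → MvPolynomial (Fin (n + 1)) k) :
    {s : Fin c × (Fin (n + 1) →₀ ℕ) // s.2.degree = d s.1} → k :=
  fun s => MvPolynomial.coeff s.1.2 (F s.1.1)

/-- All `F m` vanish on the linear subspace of `ℙ^n` spanned by the points `x 0, …, x (r - 1)`. -/
def SpanIn {k : Type} [Field k] {n c r : ℕ} (F : Fin c → MvPolynomial (Fin (n + 1)) k)
    (x : Fin r → Fin (n + 1) → k) : Prop :=
  ∀ (t : Fin r → k) (m : Fin c), MvPolynomial.eval (fun p => ∑ a, t a * x a p) (F m) = 0

/-- The Plücker coordinate `p_J = det (x_a (J b))`, for an `r`-tuple `J` of indices. -/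
def pluckerCoordinate {k : Type} [Field k] {n r : ℕ} (x : Fin r → Fin (n + 1) → k)
    (J : Fin r → Fin (n + 1)) : k :=
  Matrix.det (Matrix.of fun a b => x a (J b))

/-- `Y` has a finite `k`-morphism to the Fano scheme of the linear subspaces of dimension `r - 1`
contained in `X = {F = 0} ⊆ ℙ^n`, embedded in `ℙ^N` by the Plücker coordinates `p_J` (for all
`r`-tuples `J` of indices, enumerated by `e`): every form `g` which vanishes at the Plücker points
of all these subspaces lies in the homogeneous ideal of every image point. -/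
def FiniteOverFano {k : Type} [Field k] {n c : ℕ} (F : Fin c → MvPolynomial (Fin (n + 1)) k)
    (r : ℕ) {N : ℕ} (e : (Fin r → Fin (n + 1)) ≃ Fin (N + 1))
    (Y : Over (Spec (CommRingCat.of k))) : Prop :=
  ∃ (_ : GradedAlgebra (homogeneousSubmodule (Fin (N + 1)) k))
    (i : Y.left ⟶ Proj (homogeneousSubmodule (Fin (N + 1)) k)),
    IsFinite i ∧
    i ≫ Proj.toSpecZero (homogeneousSubmodule (Fin (N + 1)) k) ≫
      Spec.map (CommRingCat.ofHom
        (algebraMap k (homogeneousSubmodule (Fin (N + 1)) k 0))) = Y.hom ∧
    ∀ (a : Y.left) (g : MvPolynomial (Fin (N + 1)) k) (t : ℕ), g.IsHomogeneous t →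
      (∀ x : Fin r → Fin (n + 1) → k, LinearIndependent k x → SpanIn F x →
        MvPolynomial.eval (fun b => pluckerCoordinate x (e.symm b)) g = 0) →
      g ∈ (i.base a).asHomogeneousIdeal

/-- Let `k` be an algebraically closed field of characteristic zero and `X ⊆ ℙ^n` the common zero
locus of forms `F_1, …, F_c` of degrees `d_1, …, d_c` all of whose coefficients together are
algebraically independent (over `ℤ`, equivalently over `ℚ`). Let `r ≥ 1` and
`∑ C(d_m + r, r) > (r + 1) (n + 1) - r ^ 2`. Then every `k`-scheme which is finite over the Fano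
scheme of the linear subspaces of dimension `r - 1` contained in `X` is groupless and
arithmetically hyperbolic. -/
theorem result (k : Type) [Field k] [IsAlgClosed k] [CharZero k] (n c r : ℕ) (hr : 1 ≤ r)
    (d : Fin c → ℕ) (F : Fin c → MvPolynomial (Fin (n + 1)) k)
    (hom : ∀ m, (F m).IsHomogeneous (d m)) (gen : AlgebraicIndependent ℤ (coefficients d F))
    (hd : (r + 1) * (n + 1) < r ^ 2 + ∑ m, (d m + r).choose r)
    (N : ℕ) (e : (Fin r → Fin (n + 1)) ≃ Fin (N + 1))
    (Y : Over (Spec (CommRingCat.of k))) (hY : FiniteOverFano F r e Y) :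
    Groupless k Y ∧ ArithmeticallyHyperbolic k Y := by
  obtain ⟨inst, i, h1, h2, h3⟩ := hY
  exact Pool.Agent.Fano.H54.final hr d (by rw [← sq]; omega) F hom gen e Y
    ⟨inst, i, h1, h2, fun a g hg => h3 a g hg.1.choose hg.1.choose_spec hg.2⟩

end Pool.Agent.Results.MP_c7af3c_ag.FanoSchemes
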