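import Pool.Agent.Lib.MP_c7af3c_ag.LX.H46.Final

/-!
Very general complete intersections of dimension at least two and of any multidegree: groupless if
and only if arithmetically hyperbolic.
-/

namespace Pool.Agent.Results.MP_c7af3c_ag.GrouplessIffHyperbolic

open AlgebraicGeometry CategoryTheory CategoryTheory.Limits
open MvPolynomial (homogeneousSubmodule)

/-- `X` is groupless: every morphism over `k` from a proper integral `k`-group scheme (an abelian
variety) to `X` has image a single point. -/
def Groupless (k : Type) [Field k] (X : Over (Spec (CommRingCat.of k))) : Prop :=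
  ∀ (_ : CartesianMonoidalCategory (Over (Spec (CommRingCat.of k))))
    (A : Over (Spec (CommRingCat.of k))) (_ : GrpObj A),
    AlgebraicGeometry.IsIntegral A.left → IsProper A.hom →
    ∀ (g : A ⟶ X) (a b : A.left), g.left.base a = g.left.base b

/-- `X` is arithmetically hyperbolic: for every subring `R` of `k` that is finitely generated as a
ring and every separated `R`-scheme `M` of finite type with `M ×_R k ≅ X` over `k`, the set of
sections `M(R)` is finite. -/
def ArithmeticallyHyperbolic (k : Type) [Field k] (X : Over (Spec (CommRingCat.of k))) : Prop :=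
  ∀ (R : Subring k), Algebra.FiniteType ℤ R → ∀ (M : Over (Spec (CommRingCat.of R))),
    IsSeparated M.hom → LocallyOfFiniteType M.hom → QuasiCompact M.hom →
    (∃ e : pullback M.hom (Spec.map (CommRingCat.ofHom R.subtype)) ≅ X.left,
       e.hom ≫ X.hom = pullback.snd _ _) →
    {s : Spec (CommRingCat.of R) ⟶ M.left | s ≫ M.hom = 𝟙 _}.Finite

/-- The family of all coefficients of the forms `F j` of degrees `d j` in `n + 1` variables, indexed
by the pairs (`j`, monomial of degree `d j`). -/
def coefficients {k : Type} [Field k] {n c : ℕ} (d : Fin c → ℕ)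
    (F : Fin c → MvPolynomial (Fin (n + 1)) k) :
    {s : Fin c × (Fin (n + 1) →₀ ℕ) // s.2.degree = d s.1} → k :=
  fun s => MvPolynomial.coeff s.1.2 (F s.1.1)

section

attribute [local instance] MvPolynomial.gradedAlgebra

variable (k : Type) [Field k] (n : ℕ)

/-- Projective space `ℙ^n` over `k`: `Proj` of the polynomial ring in `x_0, …, x_n`. Its points are
the homogeneous prime ideals which do not contain all the `x_l`. -/
noncomputable abbrev ProjectiveSpace : Scheme.{0} :=
  Proj (homogeneousSubmodule (Fin (n + 1)) k)

/-- The structure morphism of `ℙ^n`. -/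
noncomputable def structureMorphism : ProjectiveSpace k n ⟶ Spec (CommRingCat.of k) :=
  Proj.toSpecZero (homogeneousSubmodule (Fin (n + 1)) k) ≫
    Spec.map (CommRingCat.ofHom (algebraMap k (homogeneousSubmodule (Fin (n + 1)) k 0)))

variable {k n}

/-- The image of `i : X ⟶ ℙ^n` is the zero locus of the forms `F j`: it consists of the homogeneous
primes which contain all `F j`. -/
def IsZeroLocus {X : Scheme.{0}} (i : X ⟶ ProjectiveSpace k n) {c : ℕ}
    (F : Fin c → MvPolynomial (Fin (n + 1)) k) : Prop :=
  ∀ p : ProjectiveSpace k n, p ∈ Set.range i.base ↔ ∀ j, F j ∈ p.asHomogeneousIdeal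

end

/-- Let `k` be an algebraically closed field of characteristic zero and `F 0, …, F (c-1)` forms over
`k` of degrees `d j ≥ 2` in `n + 1` variables, all of whose coefficients together are algebraically
independent over `ℤ` (equivalently, over `ℚ`). Suppose that `n - c ≥ 2`. Let `i : X ⟶ ℙ^n` be a
closed immersion over `k` whose image is the zero locus of the `F j` (so `X`, or at least its
reduction, is the complete intersection `F = 0`, of dimension `n - c`). Then

* `X` is groupless if and only if it is arithmetically hyperbolic,
* `X` is groupless if and only if `2 n - 1 ≤ c + ∑ j, d j` and `X` is not a K3 surface (`n - c = 2`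
  and `∑ j, d j = n + 1`). -/
theorem result (k : Type) [Field k] [IsAlgClosed k] [CharZero k] (n c : ℕ) (d : Fin c → ℕ)
    (F : Fin c → MvPolynomial (Fin (n + 1)) k) (hom : ∀ j, (F j).IsHomogeneous (d j))
    (gen : AlgebraicIndependent ℤ (coefficients d F)) (two : ∀ j, 2 ≤ d j) (dim : c + 2 ≤ n)
    (X : Over (Spec (CommRingCat.of k))) (i : X.left ⟶ ProjectiveSpace k n)
    (closed : IsClosedImmersion i) (overk : i ≫ structureMorphism k n = X.hom)
    (locus : IsZeroLocus i F) :
    (Groupless k X ↔ ArithmeticallyHyperbolic k X) ∧
    (Groupless k X ↔ 2 * n ≤ c + ∑ j, d j + 1 ∧ ¬ (n = c + 2 ∧ ∑ j, d j = n + 1)) :=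
  Pool.Agent.LX.H46.t3All k n c d F hom gen two dim X i closed overk fun p => (locus p).symm

end Pool.Agent.Results.MP_c7af3c_ag.GrouplessIffHyperbolic
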