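import Pool.Agent.Lib.MP_c7af3c_ag.MET.Y.MainM

/-!
Very general multicyclic covers and very general complete intersections over arbitrary subvarieties
of products of projective spaces, and all schemes quasi-finite over them, are groupless and
arithmetically hyperbolic.
-/

namespace Pool.Agent.Results.MP_c7af3c_ag.VeryGeneralCovers

open AlgebraicGeometry CategoryTheory CategoryTheory.Limits
open MvPolynomial (homogeneousSubmodule)

/-- `X` is groupless: every morphism over `k` from a proper integral `k`-group scheme (an abelian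
variety) to `X` has image a single point. -/
def Groupless (k : Type) [Field k] (X : Over (Spec (CommRingCat.of k))) : Prop :=
  ∀ (_ : CartesianMonoidalCategory (Over (Spec (CommRingCat.of k))))
    (A : Over (Spec (CommRingCat.of k))) (_ : GrpObj A),
    AlgebraicGeometry.IsIntegral A.left → IsProper A.hom →
    ∀ (g : A ⟶ X) (a b : A.left), g.left.base a = g.left.base b

/-- `X` is arithmetically hyperbolic: for every subring `R` of `k` that is finitely generated as a
ring and every separated `R`-scheme `M` of finite type with `M ×_R k ≅ X` over `k`, the set of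
sections `M(R)` is finite. -/
def ArithmeticallyHyperbolic (k : Type) [Field k] (X : Over (Spec (CommRingCat.of k))) : Prop :=
  ∀ (R : Subring k), Algebra.FiniteType ℤ R → ∀ (M : Over (Spec (CommRingCat.of R))),
    IsSeparated M.hom → LocallyOfFiniteType M.hom → QuasiCompact M.hom →
    (∃ e : pullback M.hom (Spec.map (CommRingCat.ofHom R.subtype)) ≅ X.left,
       e.hom ≫ X.hom = pullback.snd _ _) →
    {s : Spec (CommRingCat.of R) ⟶ M.left | s ≫ M.hom = 𝟙 _}.Finite

/-- The homogeneous coordinates `x_{i,j}`, `j ≤ N i`, of `∏ i, ℙ^{N i}`. -/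
abbrev Coordinates {r : ℕ} (N : Fin r → ℕ) : Type := Σ i, Fin (N i + 1)

/-- `q` is multihomogeneous of multidegree `D`. -/
def IsMultihomogeneous {R : Type} [CommSemiring R] {r : ℕ} {N : Fin r → ℕ}
    (q : MvPolynomial (Coordinates N) R) (D : Fin r → ℕ) : Prop :=
  ∀ I, MvPolynomial.coeff I q ≠ 0 → ∀ i, ∑ j, I ⟨i, j⟩ = D i

/-- The family of all coefficients of the forms `F j` of multidegrees `d j`, indexed by the pairs
(`j`, monomial of multidegree `d j`). -/
def coefficients {k : Type} [Field k] {r c : ℕ} {M : Fin r → ℕ} (d : Fin c → Fin r → ℕ)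
    (F : Fin c → MvPolynomial (Coordinates M) k) :
    {s : Fin c × (Coordinates M →₀ ℕ) // ∀ t, ∑ j, s.2 ⟨t, j⟩ = d s.1 t} → k :=
  fun s => MvPolynomial.coeff s.1.2 (F s.1.1)

/-! ### Functions on open subsets -/

/-- The ring of functions on the open subset `U` of `X`. -/
def Functions (X : Scheme.{0}) (U : X.Opens) : Type := Γ(X, U)

noncomputable instance (X : Scheme.{0}) (U : X.Opens) : CommRing (Functions X U) :=
  (X.presheaf.obj (Opposite.op U)).commRing

/-- Pullback of functions along a morphism. -/
noncomputable def pull {X Y : Scheme.{0}} (f : X ⟶ Y) (V : Y.Opens) (U : X.Opens)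
    (h : U ≤ f ⁻¹ᵁ V) : Functions Y V →+* Functions X U := (f.appLE V U h).hom

/-- The function `s` vanishes at every point. -/
def Vanishes {X : Scheme.{0}} {U : X.Opens} (s : Functions X U) : Prop :=
  X.basicOpen (U := U) s = ⊥

/-- The constants, as functions on the spectrum of `k`. -/
noncomputable def scalars (k : Type) [Field k] : k →+* Functions (Spec (CommRingCat.of k)) ⊤ :=
  (Scheme.ΓSpecIso (CommRingCat.of k)).inv.hom

/-- The constants, as functions on an open subset of a `k`-scheme. -/
noncomputable def constants {k : Type} [Field k] {X : Scheme.{0}}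
    (a : X ⟶ Spec (CommRingCat.of k)) (U : X.Opens) : k →+* Functions X U :=
  (pull a ⊤ U le_top).comp (scalars k)

/-! ### Projective space -/

section

attribute [local instance] MvPolynomial.gradedAlgebra

variable (k : Type) [Field k] (n : ℕ)

/-- Projective space `ℙ^n` over `k`: `Proj` of the polynomial ring in `x_0, …, x_n`. -/
noncomputable def ProjectiveSpace : Scheme.{0} := Proj (homogeneousSubmodule (Fin (n + 1)) k)

/-- The structure morphism of `ℙ^n`. -/
noncomputable def structureMorphism : ProjectiveSpace k n ⟶ Spec (CommRingCat.of k) :=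
  Proj.toSpecZero (homogeneousSubmodule (Fin (n + 1)) k) ≫
    Spec.map (CommRingCat.ofHom (algebraMap k (homogeneousSubmodule (Fin (n + 1)) k 0)))

/-- The open subset of `ℙ^n` where the coordinate `x_a` does not vanish. -/
noncomputable def affineChart (a : Fin (n + 1)) : (ProjectiveSpace k n).Opens :=
  Proj.basicOpen (homogeneousSubmodule (Fin (n + 1)) k) (MvPolynomial.X a)

/-- The degree zero part of the localisation of the polynomial ring at `x_a`. -/
abbrev ChartRing (a : Fin (n + 1)) : Type :=
  HomogeneousLocalization.Away (homogeneousSubmodule (Fin (n + 1)) k) (MvPolynomial.X a)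

/-- The fraction `x_b / x_a`. -/
noncomputable def fraction (a b : Fin (n + 1)) : ChartRing k n a :=
  HomogeneousLocalization.Away.mk (homogeneousSubmodule (Fin (n + 1)) k)
    (f := MvPolynomial.X a) (d := 1) (MvPolynomial.isHomogeneous_X k a) 1
    (MvPolynomial.X b) (by simpa using MvPolynomial.isHomogeneous_X k b)

/-- The fractions, as functions on `affineChart k n a`. -/
noncomputable def toFunctions (a : Fin (n + 1)) :
    ChartRing k n a →+* Functions (ProjectiveSpace k n) (affineChart k n a) :=
  (Proj.awayToSection (homogeneousSubmodule (Fin (n + 1)) k) (MvPolynomial.X a)).hom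

/-- The function `x_b / x_a` on `affineChart k n a`. -/
noncomputable def affineCoordinate (a b : Fin (n + 1)) :
    Functions (ProjectiveSpace k n) (affineChart k n a) :=
  toFunctions k n a (fraction k n a b)

end

/-! ### Charts and values of forms -/

section

variable {k : Type} [Field k] {r : ℕ} {N : Fin r → ℕ} {X : Scheme.{0}}
  (f : ∀ i, X ⟶ ProjectiveSpace k (N i)) (p : ∀ i, Fin (N i + 1))

/-- The chart `p` of `X`: the open subset where, for every `i`, the coordinate `x_{i, p i}` of the
morphism `f i : X ⟶ ℙ^{N i}` does not vanish. -/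
noncomputable def chart : X.Opens := ⨅ i, (f i) ⁻¹ᵁ affineChart k (N i) (p i)

/-- The function `x_{i,j} / x_{i, p i}` on the chart `p`. -/
noncomputable def coordinate (s : Coordinates N) : Functions X (chart f p) :=
  pull (f s.1) (affineChart k (N s.1) (p s.1)) (chart f p) (iInf_le _ s.1)
    (affineCoordinate k (N s.1) (p s.1) s.2)

/-- The function `q (x_{i,j} / x_{i, p i})` on the chart `p`. -/
noncomputable def value (a : X ⟶ Spec (CommRingCat.of k)) (q : MvPolynomial (Coordinates N) k) :
    Functions X (chart f p) :=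
  q.eval₂ (constants a (chart f p)) (coordinate f p)

end

/-- The form `F (φ)` on `∏ i, ℙ^{N i}`. -/
noncomputable def compose {k₀ k : Type} [Field k₀] [Field k] [Algebra k₀ k] {r r' : ℕ}
    {N : Fin r → ℕ} {M : Fin r' → ℕ} (φ : Coordinates M → MvPolynomial (Coordinates N) k₀)
    (F : MvPolynomial (Coordinates M) k) : MvPolynomial (Coordinates N) k :=
  MvPolynomial.bind₁ (fun t => MvPolynomial.map (algebraMap k₀ k) (φ t)) F

/-- The morphisms `f i : X ⟶ ℙ^{N i}` are morphisms over `k` with finite joint fibres over
`k`-points. -/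
def IsQuasiFinite {k : Type} [Field k] {r : ℕ} {N : Fin r → ℕ}
    (X : Over (Spec (CommRingCat.of k))) (f : ∀ i, X.left ⟶ ProjectiveSpace k (N i)) : Prop :=
  (∀ i, f i ≫ structureMorphism k (N i) = X.hom) ∧
    ∀ P : ∀ i, Spec (CommRingCat.of k) ⟶ ProjectiveSpace k (N i),
      {x : Spec (CommRingCat.of k) ⟶ X.left | x ≫ X.hom = 𝟙 _ ∧ ∀ i, x ≫ f i = P i}.Finite

/-- `X` has `k`-morphisms to `ℙ^{N i}` with finite joint fibres over `k`-points such that on `X`
the forms `g ∈ G` vanish, the forms `F j (φ)` with `e j = 0` vanish, and the forms `F j (φ)` with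
`e j > 0` are `e j`-th powers; that is: on every chart `p` (where the forms become functions by
putting `x_{i, p i} = 1`) the function given by `g` vanishes at every point, the function given by
`F j (φ)` vanishes at every point if `e j = 0`, and if `e j > 0` there is a function `y` on the
chart such that the function given by `F j (φ)` minus `y ^ e j` vanishes at every point. -/
def LiesOver {k₀ k : Type} [Field k₀] [Field k] [Algebra k₀ k] {r r' c : ℕ} {N : Fin r → ℕ}
    {M : Fin r' → ℕ} (G : Set (MvPolynomial (Coordinates N) k₀))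
    (φ : Coordinates M → MvPolynomial (Coordinates N) k₀)
    (F : Fin c → MvPolynomial (Coordinates M) k) (e : Fin c → ℕ)
    (X : Over (Spec (CommRingCat.of k))) : Prop :=
  ∃ f : ∀ i, X.left ⟶ ProjectiveSpace k (N i), IsQuasiFinite X f ∧ ∀ p : ∀ i, Fin (N i + 1),
    (∀ g ∈ G, Vanishes (value f p X.hom (MvPolynomial.map (algebraMap k₀ k) g))) ∧
    ∀ j, (e j = 0 → Vanishes (value f p X.hom (compose φ (F j)))) ∧
      (e j ≠ 0 → ∃ y : Functions X.left (chart f p),
        Vanishes (value f p X.hom (compose φ (F j)) - y ^ e j))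

/-- Let `k` be an algebraically closed field of characteristic zero, `k₀` a field with an
embedding in `k`, `Z ⊆ ∏ i, ℙ^{N i}` (`i < r`) the zero locus of a set `G` of multihomogeneous
forms over `k₀`, with multicone of dimension at most `n + r` (so `dim Z ≤ n`), and
`φ_{t,j}` (`t < r'`, `j ≤ M t`) multihomogeneous forms over `k₀` of multidegree `Q t`, such that for
each `t` the forms `φ_{t,j}` have no common zero on `Z`. Let `F 0, …, F (c-1)` be multihomogeneous
forms over `k` of multidegrees `d j` in the variables `y_{t,j}`, all of whose coefficients together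
are algebraically independent over `k₀`. Let `e j ≥ 0` be integers; `e j = 0` means that `F j (φ)`
is used as an equation, `e j > 0` that an `e j`-th root of `F j (φ)`, of multidegree `w j`, is
extracted. Let `q i ≥ Q t i` for all `t` and suppose that for every `i`
`min (N i) n + 2 + q i * n + ∑_{e j > 0} w j i ≤ ∑ j, ∑ t, d j t * Q t i + q i * #{j | e j = 0}`.
Then every `k`-scheme `X` of finite type with a quasi-finite morphism to `Z` on which the `F j (φ)`
with `e j = 0` vanish and the `F j (φ)` with `e j > 0` are `e j`-th powers (see `LiesOver`) is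
groupless and arithmetically hyperbolic. -/
theorem result (k₀ k : Type) [Field k₀] [Field k] [IsAlgClosed k] [CharZero k] [Algebra k₀ k]
    (n r r' c : ℕ) (N : Fin r → ℕ) (M : Fin r' → ℕ)
    (G : Set (MvPolynomial (Coordinates N) k₀)) (hG : ∀ g ∈ G, ∃ D, IsMultihomogeneous g D)
    (dimZ : ringKrullDim (MvPolynomial (Coordinates N) k₀ ⧸ Ideal.span G) ≤ (n + r : ℕ))
    (φ : Coordinates M → MvPolynomial (Coordinates N) k₀) (Q : Fin r' → Fin r → ℕ)
    (hφ : ∀ t, IsMultihomogeneous (φ t) (Q t.1))
    (free : ∀ x : Coordinates N → k, (∀ g ∈ G, MvPolynomial.aeval x g = 0) →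
      (∀ i, ∃ j, x ⟨i, j⟩ ≠ 0) → ∀ t, ∃ j, MvPolynomial.aeval x (φ ⟨t, j⟩) ≠ 0)
    (d : Fin c → Fin r' → ℕ) (F : Fin c → MvPolynomial (Coordinates M) k)
    (hom : ∀ j, IsMultihomogeneous (F j) (d j))
    (gen : AlgebraicIndependent k₀ (coefficients d F))
    (e : Fin c → ℕ) (w : Fin c → Fin r → ℕ)
    (hw : ∀ j, e j ≠ 0 → ∀ i, e j * w j i = ∑ t, d j t * Q t i)
    (q : Fin r → ℕ) (hq : ∀ t i, Q t i ≤ q i)
    (hd : ∀ i, min (N i) n + 2 + q i * n + ∑ j, (if e j = 0 then 0 else w j i) ≤
      ∑ j, ∑ t, d j t * Q t i + q i * (Finset.univ.filter fun j => e j = 0).card)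
    (X : Over (Spec (CommRingCat.of k))) (ft : LocallyOfFiniteType X.hom)
    (qc : QuasiCompact X.hom) (hX : LiesOver G φ F e X) :
    Groupless k X ∧ ArithmeticallyHyperbolic k X := by
  have h1 := Pool.Agent.Met.Y.indep_conv d F gen
  have hX' : Pool.Agent.Met.Y.CovM N M G φ F e X := by
    obtain ⟨f, ⟨h2, h3⟩, h4⟩ := hX
    exact ⟨fun i => MvPolynomial.gradedAlgebra, f, h2, h3, h4⟩
  exact Pool.Agent.Met.Y.mainM k₀ k N M n G
    (fun g hg => by
      obtain ⟨D, hD⟩ := hG g hg
      exact ⟨D, (Pool.Agent.Met.Y.MH_iff g D).2 hD⟩) dimZ φ Q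
    (fun t => (Pool.Agent.Met.Y.MH_iff (φ t) (Q t.1)).2 (hφ t)) free d F
    (fun j => (Pool.Agent.Met.Y.MH_iff (F j) (d j)).2 (hom j)) h1 e w hw q hq hd X ft qc hX'

end Pool.Agent.Results.MP_c7af3c_ag.VeryGeneralCovers
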